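import Mathlib

/-!
# Two generators for simple groups with a compressible action: the combinatorial core

`Rig G S` is the subgroup of the elements of `G` that are trivial outside `S`.  The main
theorem `core` says: if `a`, `z` and a set `B` satisfy six conditions, then for every finite
subset of the derived subgroup of `Rig G {x | a ^ 2 • x ∈ B}` there is an element `H`, trivial
outside `a⁻¹ z B`, such that the group generated by `a` and `z * H` contains the subset.
-/

namespace Pool.Agent.Lib.MP_d50811_al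

open Set
open scoped commutatorElement

section basics

/-- The elements of `G` that are trivial outside `S`. -/
def Rig (G : Type*) {X : Type*} [Group G] [MulAction G X] (S : Set X) : Subgroup G where
  carrier := {g | ∀ x, x ∉ S → g • x = x}
  one_mem' := fun x _ => one_smul G x
  mul_mem' := fun {g h} hg hh x hx => by rw [mul_smul, hh x hx, hg x hx]
  inv_mem' := fun {g} hg x hx => by rw [inv_smul_eq_iff, hg x hx]

variable {G X : Type*} [Group G] [MulAction G X]

theorem mem_rig {S : Set X} {g : G} : g ∈ Rig G S ↔ ∀ x, x ∉ S → g • x = x := Iff.rfl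

theorem rig_mono {S T : Set X} (h : S ⊆ T) : Rig G S ≤ Rig G T :=
  fun _ hg x hx => hg x (fun hS => hx (h hS))

theorem rig_map {S : Set X} {g : G} (hg : g ∈ Rig G S) {x : X} (hx : x ∈ S) : g • x ∈ S := by
  by_contra h
  have h1 := hg _ h
  have h2 : g • x = x := MulAction.injective g h1
  rw [h2] at h
  exact h hx

theorem rig_commute [FaithfulSMul G X] {S T : Set X} {g h : G} (hg : g ∈ Rig G S)
    (hh : h ∈ Rig G T) (hd : ∀ x, x ∈ S → x ∉ T) : g * h = h * g := by
  apply FaithfulSMul.eq_of_smul_eq_smul (α := X)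
  intro x
  rw [mul_smul, mul_smul]
  by_cases hS : x ∈ S
  · have h1 := hd x hS
    have h2 := rig_map hg hS
    rw [hh x h1, hh _ (hd _ h2)]
  · rw [hg x hS]
    by_cases hT : x ∈ T
    · have h2 := rig_map hh hT
      exact hg _ (fun h3 => hd _ h3 h2)
    · rw [hh x hT, hg x hS]

theorem rig_conj {S T : Set X} {g k : G} (hg : g ∈ Rig G S)
    (h : ∀ x, x ∉ T → k⁻¹ • x ∉ S) : k * g * k⁻¹ ∈ Rig G T := by
  intro x hx
  rw [mul_smul, mul_smul, hg _ (h x hx), smul_inv_smul]

theorem comm_conj {S T : Subgroup G} {k : G} (h : ∀ g ∈ S, k * g * k⁻¹ ∈ T) {c : G}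
    (hc : c ∈ ⁅S, S⁆) : k * c * k⁻¹ ∈ ⁅T, T⁆ := by
  have h1 : ⁅S, S⁆ ≤ (⁅T, T⁆).comap (MulAut.conj k).toMonoidHom := by
    rw [Subgroup.commutator_le]
    intro x hx y hy
    rw [Subgroup.mem_comap, map_commutatorElement]
    exact Subgroup.commutator_mem_commutator (h x hx) (h y hy)
  exact h1 hc

/-- Two elements that agree on `W` conjugate the elements of `Rig W` in the same way. -/
theorem conj_eq_of_eqOn [FaithfulSMul G X] {W : Set X} {u v h : G}
    (huv : ∀ w ∈ W, u • w = v • w) (hh : h ∈ Rig G W) : u * h * u⁻¹ = v * h * v⁻¹ := by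
  apply FaithfulSMul.eq_of_smul_eq_smul (α := X)
  intro y
  simp only [mul_smul]
  by_cases hy : u⁻¹ • y ∈ W
  · have h1 := huv _ hy
    rw [smul_inv_smul] at h1
    have h2 : v⁻¹ • y = u⁻¹ • y := by rw [inv_smul_eq_iff]; exact h1
    rw [h2]
    exact huv _ (rig_map hh hy)
  · have h2 : v⁻¹ • y ∉ W := by
      intro h3
      have h4 := huv _ h3
      rw [smul_inv_smul] at h4
      apply hy
      rw [← h4, inv_smul_smul]
      exact h3
    rw [hh _ hy, hh _ h2, smul_inv_smul, smul_inv_smul]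

/-- The commutator of two elements, one of which is trivial at each point outside `P`. -/
theorem commutator_local [FaithfulSMul G X] {P : Set X} {u v u1 v1 : G}
    (hu : ∀ y ∈ P, u • y = u1 • y) (hv : ∀ y ∈ P, v • y = v1 • y)
    (hu1 : u1 ∈ Rig G P) (hv1 : v1 ∈ Rig G P)
    (h : ∀ y, y ∉ P → u • y = y ∨ v • y = y) : ⁅u, v⁆ = ⁅u1, v1⁆ := by
  have hui : ∀ y ∈ P, u⁻¹ • y = u1⁻¹ • y := by
    intro y hy
    have h1 := rig_map ((Rig G P).inv_mem hu1) hy
    rw [inv_smul_eq_iff, hu _ h1, smul_inv_smul]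
  have hvi : ∀ y ∈ P, v⁻¹ • y = v1⁻¹ • y := by
    intro y hy
    have h1 := rig_map ((Rig G P).inv_mem hv1) hy
    rw [inv_smul_eq_iff, hv _ h1, smul_inv_smul]
  have hinv : ∀ (w : G) (y : X), w⁻¹ • y = y ↔ w • y = y := by
    intro w y
    rw [inv_smul_eq_iff, eq_comm]
  apply FaithfulSMul.eq_of_smul_eq_smul (α := X)
  intro y
  rw [commutatorElement_def, commutatorElement_def]
  simp only [mul_smul]
  by_cases hy : y ∈ P
  · have e1 := rig_map ((Rig G P).inv_mem hv1) hy
    have e2 := rig_map ((Rig G P).inv_mem hu1) e1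
    have e3 := rig_map hv1 e2
    rw [hvi y hy, hui _ e1, hv _ e2, hu _ e3]
  · -- the points outside `P` are mapped outside `P`
    have key : ∀ (w w1 : G), (∀ y ∈ P, w • y = w1 • y) → w1 ∈ Rig G P → ∀ y, y ∉ P →
        w • y ∉ P := by
      intro w w1 h1 h2 y hy h3
      have e1 := rig_map ((Rig G P).inv_mem h2) h3
      have e2 := h1 _ e1
      rw [smul_inv_smul] at e2
      have e3 := MulAction.injective w e2
      rw [e3] at e1
      exact hy e1
    have hvy : v⁻¹ • y ∉ P := key _ _ hvi ((Rig G P).inv_mem hv1) y hy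
    have huy : u⁻¹ • y ∉ P := key _ _ hui ((Rig G P).inv_mem hu1) y hy
    rw [(hinv v1 y).2 (hv1 y hy), (hinv u1 y).2 (hu1 y hy), hv1 y hy, hu1 y hy]
    by_cases h1 : v • y = y
    · rw [(hinv v y).2 h1]
      by_cases h2 : u • y = y
      · rw [(hinv u y).2 h2, h1, h2]
      · rcases h _ huy with h3 | h3
        · exfalso
          rw [smul_inv_smul] at h3
          exact h2 ((hinv u y).1 h3.symm)
        · rw [h3, smul_inv_smul]
    · have h2 : u • y = y := (h y hy).resolve_right h1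
      rcases h _ hvy with h3 | h3
      · rw [(hinv u _).2 h3, smul_inv_smul, h2]
      · exfalso
        rw [smul_inv_smul] at h3
        exact h1 ((hinv v y).1 h3.symm)

end basics

section payload

variable {G X : Type*} [Group G] [MulAction G X]

theorem pow_mem_of {c : G} {W T : Set X} (h1 : ∀ w ∈ W, c • w ∈ T) (h2 : ∀ w ∈ T, c • w ∈ T)
    (n : ℕ) : ∀ w ∈ W, c ^ (n + 1) • w ∈ T := by
  induction n with
  | zero => intro w hw; rw [zero_add, pow_one]; exact h1 w hw
  | succ n ih =>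
    intro w hw
    rw [pow_succ', mul_smul]
    exact h2 _ (ih w hw)

/-- Uniqueness of levels. -/
theorem level {c : G} {E T : Set X} (h1 : ∀ w ∈ E, c • w ∈ T) (h2 : ∀ w ∈ T, c • w ∈ T)
    (h3 : ∀ w ∈ E, w ∉ T) {n m : ℕ} {w w' : X} (hw : w ∈ E) (hw' : w' ∈ E)
    (h : c ^ n • w = c ^ m • w') : n = m ∧ w = w' := by
  have key : ∀ (n d : ℕ) (w w' : X), w ∈ E → w' ∈ E → c ^ n • w = c ^ (n + (d + 1)) • w' →
      False := by
    intro n d w w' hw hw' h
    rw [pow_add, mul_smul] at h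
    have h4 := MulAction.injective (c ^ n) h
    apply h3 w hw
    rw [h4]
    exact pow_mem_of h1 h2 d w' hw'
  rcases lt_trichotomy n m with hlt | heq | hgt
  · exfalso
    obtain ⟨d, rfl⟩ := Nat.exists_eq_add_of_lt hlt
    exact key n d w w' hw hw' (by rw [h]; rfl)
  · subst heq
    exact ⟨rfl, MulAction.injective (c ^ n) h⟩
  · exfalso
    obtain ⟨d, rfl⟩ := Nat.exists_eq_add_of_lt hgt
    exact key m d w' w hw' hw (by rw [← h]; rfl)

theorem payload {c : G} {W T : Set X} (h1 : ∀ w ∈ W, c • w ∈ T) (h2 : ∀ w ∈ T, c • w ∈ T)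
    (h3 : ∀ w ∈ W, w ∉ T) (h : ℕ → G) (hh : ∀ i, h i ∈ Rig G W) (k : ℕ) :
    ∃ H : G, (∀ i < k, ∀ w ∈ W, H • (c ^ (2 ^ i) • w) = c ^ (2 ^ i) • (h i • w)) ∧
      (∀ y, (∀ i < k, ∀ w ∈ W, y ≠ c ^ (2 ^ i) • w) → H • y = y) := by
  induction k with
  | zero => exact ⟨1, fun i hi => absurd hi (Nat.not_lt_zero i), fun y _ => one_smul G y⟩
  | succ k ih =>
    obtain ⟨H, hH1, hH2⟩ := ih
    refine ⟨H * (c ^ (2 ^ k) * h k * (c ^ (2 ^ k))⁻¹), ?_, ?_⟩
    · intro i hi w hw
      rcases Nat.lt_succ_iff_lt_or_eq.1 hi with hi | rfl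
      · have e1 : (c ^ (2 ^ k))⁻¹ • (c ^ (2 ^ i) • w) ∉ W := by
          intro h4
          have h5 : c ^ (2 ^ k) • ((c ^ (2 ^ k))⁻¹ • (c ^ (2 ^ i) • w)) = c ^ (2 ^ i) • w :=
            smul_inv_smul _ _
          have h6 := (level h1 h2 h3 h4 hw h5).1
          have h7 := Nat.pow_right_injective le_rfl h6
          omega
        rw [mul_smul, mul_smul, mul_smul, hh k _ e1, smul_inv_smul]
        exact hH1 i hi w hw
      · rw [mul_smul, mul_smul, mul_smul, inv_smul_smul]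
        apply hH2
        intro j hj w' hw' h4
        have h6 := (level h1 h2 h3 (rig_map (hh i) hw) hw' h4).1
        have h7 := Nat.pow_right_injective le_rfl h6
        omega
    · intro y hy
      have e1 : (c ^ (2 ^ k))⁻¹ • y ∉ W := by
        intro h4
        exact hy k (Nat.lt_succ_self k) _ h4 (smul_inv_smul _ _).symm
      rw [mul_smul, mul_smul, mul_smul, hh k _ e1, smul_inv_smul]
      exact hH2 y (fun i hi w hw => hy i (Nat.lt_succ_of_lt hi) w hw)

/-- The Sidon property of the powers of two. -/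
theorem sidon {i j l m : ℕ} (hij : i ≠ j) (h : 2 ^ j + 2 ^ l = 2 ^ i + 2 ^ m) :
    l = i ∧ m = j := by
  have half : ∀ a b c d : ℕ, a ≤ b → b < d → 2 ^ a + 2 ^ b = 2 ^ c + 2 ^ d → False := by
    intro a b c d hab hbd h
    have h1 : 2 ^ a ≤ 2 ^ b := Nat.pow_le_pow_right (by norm_num) hab
    have h2 : 2 ^ (b + 1) ≤ 2 ^ d := Nat.pow_le_pow_right (by norm_num) hbd
    have h3 : 2 ^ (b + 1) = 2 * 2 ^ b := by ring
    have h4 : 0 < 2 ^ c := by positivity
    omega
  have key : ∀ a b c d : ℕ, a ≤ b → c ≤ d → 2 ^ a + 2 ^ b = 2 ^ c + 2 ^ d →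
      a = c ∧ b = d := by
    intro a b c d hab hcd h
    have hbd : b = d := by
      rcases lt_trichotomy b d with h1 | h1 | h1
      · exact (half a b c d hab h1 h).elim
      · exact h1
      · exact (half c d a b hcd h1 h.symm).elim
    subst hbd
    exact ⟨Nat.pow_right_injective le_rfl (by simpa using h), rfl⟩
  rcases le_total j l with h1 | h1 <;> rcases le_total i m with h2 | h2
  · have := key j l i m h1 h2 h; omega
  · have := key j l m i h1 h2 (by omega); omega
  · have := key l j i m h1 h2 (by omega); omega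
  · have := key l j m i h1 h2 (by omega); omega

end payload

section main

variable {G X : Type*} [Group G] [MulAction G X] [FaithfulSMul G X]

/-- The combinatorial core, for a sequence of elements. -/
theorem core_seq {a z : G} {B : Set X} (h1 : ∀ x ∈ B, a • x ∈ B) (h2 : ∀ x ∈ B, z • x ∉ B)
    (h3 : ∀ x ∈ B, a • z • x ∈ B) (h4 : ∀ x ∈ B, z • a⁻¹ • z • x = a⁻¹ • z • x)
    (h5 : ∀ x : X, a • a • x ∉ B → a • a • z • x ∈ B)
    (h6 : ∀ x : X, a • a • x ∉ B → z • x ∉ B)
    (k : ℕ) (x : ℕ → G) (hx : ∀ i, x i ∈ Rig G {y : X | a • a • y ∈ B}) :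
    ∃ H : G, H ∈ Rig G {y : X | z⁻¹ • a • y ∈ B} ∧
      ∀ i < k, ∀ j < k, ⁅x i, x j⁆ ∈ Subgroup.closure {a, z * H} := by
  classical
  -- the set `U`
  set U : Set X := {y : X | z⁻¹ • a • y ∈ B} with hU
  have mU : ∀ y, y ∈ U ↔ z⁻¹ • a • y ∈ B := fun y => Iff.rfl
  have thU : ∀ y ∈ B, a⁻¹ • z • y ∈ U := by
    intro y hy
    rw [mU, smul_inv_smul, inv_smul_smul]
    exact hy
  have repU : ∀ y ∈ U, ∃ w ∈ B, y = a⁻¹ • z • w := by
    intro y hy
    exact ⟨z⁻¹ • a • y, hy, by rw [smul_inv_smul, inv_smul_smul]⟩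
  have zU : ∀ y ∈ U, z • y = y := by
    intro y hy
    obtain ⟨w, hw, rfl⟩ := repU y hy
    exact h4 w hw
  have UB : ∀ y ∈ U, y ∉ B := by
    intro y hy hB
    obtain ⟨w, hw, rfl⟩ := repU y hy
    have e := h1 _ hB
    rw [smul_inv_smul] at e
    exact h2 w hw e
  have UA2 : ∀ y ∈ U, a • a • y ∈ B := by
    intro y hy
    obtain ⟨w, hw, rfl⟩ := repU y hy
    rw [smul_inv_smul]
    exact h3 w hw
  -- `g` and `p`
  set g : G := a⁻¹ * z * a * a * z with hg
  set p : G := a⁻¹ * z * a * a * a * z with hp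
  set c0 : G := g * (a * a) * g⁻¹ with hc0
  set B3 : Set X := {y : X | g⁻¹ • y ∈ B} with hB3
  set W : Set X := {y : X | p⁻¹ • y ∈ B} with hW
  have gB : ∀ y ∈ B, g • y ∈ B3 := by
    intro y hy
    show g⁻¹ • g • y ∈ B
    rw [inv_smul_smul]; exact hy
  have repB3 : ∀ y ∈ B3, ∃ w ∈ B, y = g • w := fun y hy => ⟨g⁻¹ • y, hy, (smul_inv_smul _ _).symm⟩
  have repW : ∀ y ∈ W, ∃ w ∈ B, y = p • w := fun y hy => ⟨p⁻¹ • y, hy, (smul_inv_smul _ _).symm⟩
  have geq : ∀ y : X, g • y = a⁻¹ • z • a • a • z • y := by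
    intro y; simp only [hg, mul_smul]
  have peq : ∀ y : X, p • y = a⁻¹ • z • a • a • a • z • y := by
    intro y; simp only [hp, mul_smul]
  have c0eq : ∀ y : X, c0 • g • y = g • a • a • y := by
    intro y; simp only [hc0, mul_smul, inv_smul_smul]
  -- `a a z` maps `B` and the complement of `a⁻² B` into `B`
  have aaz : ∀ y : X, y ∈ B ∨ a • a • y ∉ B → a • a • z • y ∈ B := by
    intro y hy
    rcases hy with hy | hy
    · exact h1 _ (h3 y hy)
    · exact h5 y hy
  have gU : ∀ y : X, y ∈ B ∨ a • a • y ∉ B → g • y ∈ U := by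
    intro y hy
    rw [geq]
    exact thU _ (aaz y hy)
  have B3U : ∀ y ∈ B3, y ∈ U := by
    intro y hy
    obtain ⟨w, hw, rfl⟩ := repB3 y hy
    exact gU w (Or.inl hw)
  have aaaz : ∀ y ∈ B, a • a • a • z • y ∈ B := fun y hy => h1 _ (h1 _ (h3 y hy))
  have WU : ∀ y ∈ W, y ∈ U := by
    intro y hy
    obtain ⟨w, hw, rfl⟩ := repW y hy
    rw [peq]
    exact thU _ (aaaz w hw)
  -- the points of `W` in the form `g v`
  have repW' : ∀ y ∈ W, ∃ v : X, y = g • v ∧ z • v ∈ B ∧ a • a • v ∈ B ∧ v ∉ B ∧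
      v ∉ U := by
    intro y hy
    obtain ⟨w, hw, rfl⟩ := repW y hy
    have e1 : z • z⁻¹ • a • z • w = a • z • w := smul_inv_smul _ _
    have e2 : z • z⁻¹ • a • z • w ∈ B := by rw [e1]; exact h3 w hw
    refine ⟨z⁻¹ • a • z • w, ?_, e2, ?_, ?_, ?_⟩
    · rw [geq, peq, smul_inv_smul]
    · by_contra h
      exact h6 _ h e2
    · intro h
      exact h2 _ h e2
    · intro h
      have e3 := zU _ h
      rw [e3] at e2
      exact UB _ h e2
  have c0W : ∀ y ∈ W, c0 • y ∈ B3 := by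
    intro y hy
    obtain ⟨v, rfl, _, hv, _⟩ := repW' y hy
    rw [c0eq]
    exact gB _ hv
  have c0B3 : ∀ y ∈ B3, c0 • y ∈ B3 := by
    intro y hy
    obtain ⟨w, hw, rfl⟩ := repB3 y hy
    rw [c0eq]
    exact gB _ (h1 _ (h1 _ hw))
  have WB3 : ∀ y ∈ W, y ∉ B3 := by
    intro y hy hB
    obtain ⟨v, rfl, _, _, hv, _⟩ := repW' y hy
    apply hv
    have := hB
    change g⁻¹ • g • v ∈ B at this
    rwa [inv_smul_smul] at this
  -- the elements `Ψ (x i)`
  set q : G := p * (a * a) with hq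
  have hh : ∀ i, q * x i * q⁻¹ ∈ Rig G W := by
    intro i
    apply rig_conj (hx i)
    intro y hy h
    apply hy
    change a • a • q⁻¹ • y ∈ B at h
    show p⁻¹ • y ∈ B
    have e : a • a • q⁻¹ • y = p⁻¹ • y := by
      rw [hq, mul_inv_rev, mul_inv_rev]
      simp only [mul_smul, smul_inv_smul]
    rwa [e] at h
  obtain ⟨H, hH1, hH2⟩ := payload c0W c0B3 WB3 (fun i => q * x i * q⁻¹) hh k
  have c0pow : ∀ n : ℕ, ∀ w ∈ W, c0 ^ (n + 1) • w ∈ B3 := fun n => pow_mem_of c0W c0B3 n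
  have HU : H ∈ Rig G U := by
    intro y hy
    apply hH2
    intro i _ w hw h
    apply hy
    obtain ⟨n, hn⟩ : ∃ n, 2 ^ i = n + 1 := ⟨2 ^ i - 1, by have : 0 < 2 ^ i := by positivity
                                                          omega⟩
    rw [h, hn]
    exact B3U _ (c0pow n w hw)
  refine ⟨H, HU, ?_⟩
  set b : G := z * H with hb
  set K := Subgroup.closure {a, b} with hK
  have aK : a ∈ K := Subgroup.subset_closure (by simp)
  have bK : b ∈ K := Subgroup.subset_closure (by simp)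
  have beq : ∀ y, y ∉ U → b • y = z • y := by
    intro y hy
    rw [hb, mul_smul, HU y hy]
  have BU : ∀ y ∈ B, y ∉ U := fun y hy hU => UB y hU hy
  have A2U : ∀ y : X, a • a • y ∉ B → y ∉ U := fun y hy hU => hy (UA2 y hU)
  -- `g'`
  set g' : G := a⁻¹ * b * a * a * b with hg'
  have g'K : g' ∈ K := by
    rw [hg']
    exact K.mul_mem (K.mul_mem (K.mul_mem (K.mul_mem (K.inv_mem aK) bK) aK) aK) bK
  have g'eq : ∀ y : X, y ∈ B ∨ a • a • y ∉ B → g' • y = g • y := by
    intro y hy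
    have e1 : y ∉ U := by
      rcases hy with hy | hy
      · exact BU y hy
      · exact A2U y hy
    rw [geq]
    simp only [hg', mul_smul]
    rw [beq y e1, beq _ (BU _ (aaz y hy))]
  set c : G := g' * (a * a) * g'⁻¹ with hc
  have cK : c ∈ K := K.mul_mem (K.mul_mem g'K (K.mul_mem aK aK)) (K.inv_mem g'K)
  have ceq : ∀ y : X, c • g' • y = g' • a • a • y := by
    intro y; simp only [hc, mul_smul, inv_smul_smul]
  -- the part `A3 = g A2`
  have cB3 : ∀ y : X, (∀ w : X, a • a • w ∉ B → y ≠ g' • w) → c • y ∈ B3 := by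
    intro y hy
    have e1 : a • a • g'⁻¹ • y ∈ B := by
      by_contra h
      exact hy _ h (smul_inv_smul _ _).symm
    have e2 : c • y = g' • a • a • g'⁻¹ • y := by
      simp only [hc, mul_smul]
    rw [e2, g'eq _ (Or.inl e1)]
    exact gB _ e1
  have outU : ∀ y, y ∉ U → ∀ w : X, a • a • w ∉ B → y ≠ g' • w := by
    intro y hy w hw h
    apply hy
    rw [h, g'eq w (Or.inr hw)]
    exact gU w (Or.inr hw)
  have inB3 : ∀ y ∈ B3, ∀ w : X, a • a • w ∉ B → y ≠ g' • w := by
    intro y hy w hw h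
    obtain ⟨v, hv, rfl⟩ := repB3 y hy
    rw [g'eq w (Or.inr hw)] at h
    have := MulAction.injective g h
    subst this
    exact hw (h1 _ (h1 _ hv))
  have inW : ∀ y ∈ W, ∀ w : X, a • a • w ∉ B → y ≠ g' • w := by
    intro y hy w hw h
    obtain ⟨v, rfl, _, hv, _⟩ := repW' y hy
    rw [g'eq w (Or.inr hw)] at h
    have := MulAction.injective g h
    subst this
    exact hw hv
  -- the set `E` of the levels
  set E : Set X := {y : X | y ∉ U ∨ y ∈ W} with hE
  have cE : ∀ y ∈ E, c • y ∈ B3 := by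
    intro y hy
    rcases hy with hy | hy
    · exact cB3 y (outU y hy)
    · exact cB3 y (inW y hy)
  have cB : ∀ y ∈ B3, c • y ∈ B3 := fun y hy => cB3 y (inB3 y hy)
  have EB3 : ∀ y ∈ E, y ∉ B3 := by
    intro y hy hB
    rcases hy with hy | hy
    · exact hy (B3U y hB)
    · exact WB3 y hy hB
  -- `c = c0` on `W` and `B3`
  have cc0B3 : ∀ y ∈ B3, c • y = c0 • y := by
    intro y hy
    obtain ⟨v, hv, rfl⟩ := repB3 y hy
    rw [c0eq, ← g'eq v (Or.inl hv), ceq, g'eq _ (Or.inl (h1 _ (h1 _ hv)))]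
  have g'W : ∀ v : X, z • v ∈ B → v ∉ U → g' • v = g • v := by
    intro v hzv hvU
    rw [geq]
    simp only [hg', mul_smul]
    rw [beq v hvU, beq]
    exact BU _ (h1 _ (h1 _ hzv))
  have cc0W : ∀ y ∈ W, c • y = c0 • y := by
    intro y hy
    obtain ⟨v, rfl, hzv, hv, hvB, hvU⟩ := repW' y hy
    rw [c0eq, ← g'W v hzv hvU, ceq, g'eq _ (Or.inl hv)]
  have cpow : ∀ n : ℕ, ∀ w ∈ W, c ^ n • w = c0 ^ n • w := by
    intro n w hw
    induction n with
    | zero => simp
    | succ n ih =>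
      rw [pow_succ' c, mul_smul c, ih, pow_succ' c0, mul_smul c0]
      rcases Nat.eq_zero_or_pos n with rfl | hn
      · rw [pow_zero, one_smul]; exact cc0W w hw
      · obtain ⟨m, rfl⟩ : ∃ m, n = m + 1 := ⟨n - 1, by omega⟩
        exact cc0B3 _ (c0pow m w hw)
  -- the commutator computation
  have main : ∀ i < k, ∀ j < k, i ≠ j → ⁅q * x j * q⁻¹, q * x i * q⁻¹⁆ ∈ K := by
    intro i hi j hj hij
    set N : ℕ := 2 ^ i + 2 ^ j with hN
    have comm : ∀ m n : ℕ, ∀ y : X, c ^ m • c ^ n • y = c ^ (m + n) • y := by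
      intro m n y; rw [← mul_smul, ← pow_add]
    -- action of `b` on the levels
    have bW : ∀ l < k, ∀ w ∈ W, b • c ^ (2 ^ l) • w = c ^ (2 ^ l) • (q * x l * q⁻¹) • w := by
      intro l hl w hw
      have e0 : (q * x l * q⁻¹) • w ∈ W := rig_map (hh l) hw
      have e1 := hH1 l hl w hw
      rw [cpow _ w hw, cpow _ _ e0, hb, mul_smul, e1]
      apply zU
      obtain ⟨n, hn⟩ : ∃ n, 2 ^ l = n + 1 := ⟨2 ^ l - 1, by have : 0 < 2 ^ l := by positivity
                                                            omega⟩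
      rw [hn]
      exact B3U _ (c0pow n _ e0)
    have bout : ∀ y : X, b • y ≠ y → y ∉ U ∨ ∃ l < k, ∃ w ∈ W, y = c ^ (2 ^ l) • w := by
      intro y hy
      by_cases hU : y ∈ U
      · right
        by_contra hcon
        apply hy
        have e1 : H • y = y := by
          apply hH2
          intro l hl w hw h
          exact hcon ⟨l, hl, w, hw, by rw [h, cpow _ w hw]⟩
        rw [hb, mul_smul, e1, zU y hU]
      · left; exact hU
    have act : ∀ l < k, ∀ l' < k, ∀ w ∈ W,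
        (c ^ (2 ^ l) * b * (c ^ (2 ^ l))⁻¹) • c ^ (2 ^ l + 2 ^ l') • w =
          c ^ (2 ^ l + 2 ^ l') • (q * x l' * q⁻¹) • w := by
      intro l hl l' hl' w hw
      rw [← comm, mul_smul, mul_smul, inv_smul_smul, bW l' hl' w hw, comm]
    have out : ∀ l < k, ∀ y : X, (c ^ (2 ^ l) * b * (c ^ (2 ^ l))⁻¹) • y ≠ y →
        (∃ v, v ∉ U ∧ y = c ^ (2 ^ l) • v) ∨
          ∃ l' < k, ∃ w ∈ W, y = c ^ (2 ^ l + 2 ^ l') • w := by
      intro l hl y hy
      have e1 : b • (c ^ (2 ^ l))⁻¹ • y ≠ (c ^ (2 ^ l))⁻¹ • y := by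
        intro h
        apply hy
        rw [mul_smul, mul_smul, h, smul_inv_smul]
      rcases bout _ e1 with h | ⟨l', hl', w, hw, h⟩
      · left; exact ⟨_, h, (smul_inv_smul _ _).symm⟩
      · right
        refine ⟨l', hl', w, hw, ?_⟩
        rw [← comm, ← h, smul_inv_smul]
    -- the local form of the commutator
    set P : Set X := {y : X | (c ^ N)⁻¹ • y ∈ W} with hP
    have repP : ∀ y ∈ P, ∃ w ∈ W, y = c ^ N • w := fun y hy =>
      ⟨_, hy, (smul_inv_smul _ _).symm⟩
    have inP : ∀ w ∈ W, c ^ N • w ∈ P := by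
      intro w hw
      show (c ^ N)⁻¹ • c ^ N • w ∈ W
      rw [inv_smul_smul]; exact hw
    have conjP : ∀ l, c ^ N * (q * x l * q⁻¹) * (c ^ N)⁻¹ ∈ Rig G P := by
      intro l
      apply rig_conj (hh l)
      intro y hy h
      exact hy h
    have e1 : ⁅c ^ (2 ^ i) * b * (c ^ (2 ^ i))⁻¹, c ^ (2 ^ j) * b * (c ^ (2 ^ j))⁻¹⁆ =
        ⁅c ^ N * (q * x j * q⁻¹) * (c ^ N)⁻¹, c ^ N * (q * x i * q⁻¹) * (c ^ N)⁻¹⁆ := by
      apply commutator_local (P := P) _ _ (conjP j) (conjP i)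
      · intro y hyP
        by_contra hcon
        push Not at hcon
        obtain ⟨hu, hv⟩ := hcon
        have WE : ∀ w ∈ W, w ∈ E := fun w hw => Or.inr hw
        have UE : ∀ v, v ∉ U → v ∈ E := fun v hv => Or.inl hv
        rcases out i hi y hu with ⟨v, hv1, hv2⟩ | ⟨l, hl, w, hw, hy1⟩
        · rcases out j hj y hv with ⟨v', hv1', hv2'⟩ | ⟨m, hm, w', hw', hy2⟩
          · have := (level cE cB EB3 (UE v hv1) (UE v' hv1') (hv2.symm.trans hv2')).1
            exact hij (Nat.pow_right_injective le_rfl this)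
          · have := (level cE cB EB3 (UE v hv1) (WE w' hw') (hv2.symm.trans hy2)).2
            rw [this] at hv1
            exact hv1 (WU _ hw')
        · rcases out j hj y hv with ⟨v', hv1', hv2'⟩ | ⟨m, hm, w', hw', hy2⟩
          · have := (level cE cB EB3 (UE v' hv1') (WE w hw) (hv2'.symm.trans hy1)).2
            rw [this] at hv1'
            exact hv1' (WU _ hw)
          · have e := (level cE cB EB3 (WE w hw) (WE w' hw') (hy1.symm.trans hy2)).1
            have e' := (sidon (i := j) (j := i) (l := l) (m := m) (Ne.symm hij) e).1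
            apply hyP
            rw [hy1, e']
            exact inP w hw
      · intro y hy
        obtain ⟨w, hw, rfl⟩ := repP y hy
        rw [hN, act i hi j hj w hw, mul_smul (c ^ (2 ^ i + 2 ^ j) * (q * x j * q⁻¹)),
          inv_smul_smul, mul_smul (c ^ (2 ^ i + 2 ^ j))]
      · intro y hy
        obtain ⟨w, hw, rfl⟩ := repP y hy
        rw [hN, mul_smul (c ^ (2 ^ i + 2 ^ j) * (q * x i * q⁻¹)),
          mul_smul (c ^ (2 ^ i + 2 ^ j)), inv_smul_smul, add_comm (2 ^ i) (2 ^ j)]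
        exact act j hj i hi w hw
    have e2 : ⁅c ^ N * (q * x j * q⁻¹) * (c ^ N)⁻¹, c ^ N * (q * x i * q⁻¹) * (c ^ N)⁻¹⁆ =
        c ^ N * ⁅q * x j * q⁻¹, q * x i * q⁻¹⁆ * (c ^ N)⁻¹ := by
      simp only [commutatorElement_def]; group
    have e3 : c ^ N * ⁅q * x j * q⁻¹, q * x i * q⁻¹⁆ * (c ^ N)⁻¹ ∈ K := by
      rw [← e2, ← e1, commutatorElement_def]
      have hb : ∀ l, c ^ (2 ^ l) * b * (c ^ (2 ^ l))⁻¹ ∈ K := fun l =>
        K.mul_mem (K.mul_mem (K.pow_mem cK _) bK) (K.inv_mem (K.pow_mem cK _))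
      exact K.mul_mem (K.mul_mem (K.mul_mem (hb i) (hb j)) (K.inv_mem (hb i)))
        (K.inv_mem (hb j))
    have e4 := K.mul_mem (K.mul_mem (K.inv_mem (K.pow_mem cK N)) e3) (K.pow_mem cK N)
    have e5 : (c ^ N)⁻¹ * (c ^ N * ⁅q * x j * q⁻¹, q * x i * q⁻¹⁆ * (c ^ N)⁻¹) * c ^ N =
        ⁅q * x j * q⁻¹, q * x i * q⁻¹⁆ := by group
    rwa [e5] at e4
  -- transport by `p'`
  set p' : G := a⁻¹ * b * a * a * a * b with hp'
  have p'K : p' ∈ K := by
    rw [hp']
    exact K.mul_mem (K.mul_mem (K.mul_mem (K.mul_mem (K.mul_mem (K.inv_mem aK) bK) aK) aK) aK) bK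
  have p'eq : ∀ y ∈ B, p' • y = p • y := by
    intro y hy
    rw [peq]
    simp only [hp', mul_smul]
    rw [beq y (BU y hy), beq _ (BU _ (aaaz y hy))]
  have final : ∀ i < k, ∀ j < k, i ≠ j → ⁅x i, x j⁆ ∈ K := by
    intro i hi j hj hij
    have e1 := main j hj i hi (Ne.symm hij)
    have e2 : ⁅q * x i * q⁻¹, q * x j * q⁻¹⁆ =
        p * (a * a * ⁅x i, x j⁆ * (a * a)⁻¹) * p⁻¹ := by
      simp only [commutatorElement_def, hq]; group
    have e3 : a * a * ⁅x i, x j⁆ * (a * a)⁻¹ ∈ Rig G B := by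
      have h5 : ⁅x i, x j⁆ ∈ Rig G {y : X | a • a • y ∈ B} := by
        rw [commutatorElement_def]
        exact (Rig G _).mul_mem ((Rig G _).mul_mem ((Rig G _).mul_mem (hx i) (hx j))
          ((Rig G _).inv_mem (hx i))) ((Rig G _).inv_mem (hx j))
      apply rig_conj h5
      intro y hy h
      apply hy
      change a • a • (a * a)⁻¹ • y ∈ B at h
      rwa [mul_inv_rev, mul_smul, smul_inv_smul, smul_inv_smul] at h
    have e4 : p * (a * a * ⁅x i, x j⁆ * (a * a)⁻¹) * p⁻¹ =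
        p' * (a * a * ⁅x i, x j⁆ * (a * a)⁻¹) * p'⁻¹ :=
      conj_eq_of_eqOn (fun w hw => (p'eq w hw).symm) e3
    rw [e2, e4] at e1
    have e5 := K.mul_mem (K.mul_mem (K.inv_mem (K.mul_mem p'K (K.mul_mem aK aK))) e1)
      (K.mul_mem p'K (K.mul_mem aK aK))
    have e6 : (p' * (a * a))⁻¹ * (p' * (a * a * ⁅x i, x j⁆ * (a * a)⁻¹) * p'⁻¹) *
        (p' * (a * a)) = ⁅x i, x j⁆ := by group
    rwa [e6] at e5
  intro i hi j hj
  by_cases hij : i = j
  · subst hij
    rw [commutatorElement_self]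
    exact K.one_mem
  · exact final i hi j hj hij

/-- Every element of the derived subgroup of `R` involves finitely many elements of `R`. -/
theorem exists_finset_of_mem_commutator {R : Subgroup G} {c : G} (hc : c ∈ ⁅R, R⁆) :
    ∃ L : Finset G, (∀ x ∈ L, x ∈ R) ∧
      ∀ K : Subgroup G, (∀ x ∈ L, ∀ y ∈ L, ⁅x, y⁆ ∈ K) → c ∈ K := by
  classical
  rw [Subgroup.commutator_def] at hc
  induction hc using Subgroup.closure_induction with
  | mem c hc =>
    obtain ⟨x, hx, y, hy, rfl⟩ := hc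
    refine ⟨{x, y}, ?_, fun K hK => hK x (by simp) y (by simp)⟩
    intro t ht
    rcases Finset.mem_insert.1 ht with rfl | ht
    · exact hx
    · rw [Finset.mem_singleton.1 ht]; exact hy
  | one => exact ⟨∅, by simp, fun K _ => K.one_mem⟩
  | mul x y _ _ hx hy =>
    obtain ⟨L1, h1, h2⟩ := hx
    obtain ⟨L2, h3, h4⟩ := hy
    refine ⟨L1 ∪ L2, ?_, ?_⟩
    · intro t ht
      rcases Finset.mem_union.1 ht with ht | ht
      · exact h1 t ht
      · exact h3 t ht
    · intro K hK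
      exact K.mul_mem
        (h2 K fun x hx y hy => hK x (Finset.mem_union_left _ hx) y (Finset.mem_union_left _ hy))
        (h4 K fun x hx y hy => hK x (Finset.mem_union_right _ hx) y (Finset.mem_union_right _ hy))
  | inv x _ hx =>
    obtain ⟨L1, h1, h2⟩ := hx
    exact ⟨L1, h1, fun K hK => K.inv_mem (h2 K hK)⟩

/-- The combinatorial core. -/
theorem core {a z : G} {B : Set X} (h1 : ∀ x ∈ B, a • x ∈ B) (h2 : ∀ x ∈ B, z • x ∉ B)
    (h3 : ∀ x ∈ B, a • z • x ∈ B) (h4 : ∀ x ∈ B, z • a⁻¹ • z • x = a⁻¹ • z • x)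
    (h5 : ∀ x : X, a • a • x ∉ B → a • a • z • x ∈ B)
    (h6 : ∀ x : X, a • a • x ∉ B → z • x ∉ B)
    (S : Set G) (hS : S.Finite)
    (hSR : ∀ s ∈ S, s ∈ ⁅Rig G {y : X | a • a • y ∈ B}, Rig G {y : X | a • a • y ∈ B}⁆) :
    ∃ H : G, H ∈ Rig G {y : X | z⁻¹ • a • y ∈ B} ∧
      ∀ s ∈ S, s ∈ Subgroup.closure {a, z * H} := by
  classical
  set R := Rig G {y : X | a • a • y ∈ B} with hR
  have hL : ∃ L : Finset G, (∀ x ∈ L, x ∈ R) ∧
      ∀ K : Subgroup G, (∀ x ∈ L, ∀ y ∈ L, ⁅x, y⁆ ∈ K) → ∀ s ∈ S, s ∈ K := by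
    induction S, hS using Set.Finite.induction_on with
    | empty => exact ⟨∅, by simp, fun K _ s hs => absurd hs (Set.notMem_empty s)⟩
    | insert _ _ ih =>
      rename_i c T _ _
      obtain ⟨L1, e1, e2⟩ := ih (fun s hs => hSR s (Set.mem_insert_of_mem _ hs))
      obtain ⟨L2, e3, e4⟩ := exists_finset_of_mem_commutator (hSR c (Set.mem_insert _ _))
      refine ⟨L1 ∪ L2, ?_, ?_⟩
      · intro t ht
        rcases Finset.mem_union.1 ht with ht | ht
        · exact e1 t ht
        · exact e3 t ht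
      · intro K hK s hs
        rcases Set.mem_insert_iff.1 hs with rfl | hs
        · exact e4 K fun x hx y hy => hK x (Finset.mem_union_right _ hx) y
            (Finset.mem_union_right _ hy)
        · exact e2 K (fun x hx y hy => hK x (Finset.mem_union_left _ hx) y
            (Finset.mem_union_left _ hy)) s hs
  obtain ⟨L, hL1, hL2⟩ := hL
  have hx : ∀ i, L.toList.getD i 1 ∈ R := by
    intro i
    rcases lt_or_ge i L.toList.length with h | h
    · rw [List.getD_eq_getElem _ _ h]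
      exact hL1 _ (Finset.mem_toList.1 (List.getElem_mem h))
    · rw [List.getD_eq_default _ _ h]
      exact R.one_mem
  obtain ⟨H, hH1, hH2⟩ := core_seq h1 h2 h3 h4 h5 h6 L.toList.length
    (fun i => L.toList.getD i 1) hx
  refine ⟨H, hH1, hL2 _ ?_⟩
  intro x hx y hy
  obtain ⟨i, hi, rfl⟩ := List.getElem_of_mem (Finset.mem_toList.2 hx)
  obtain ⟨j, hj, rfl⟩ := List.getElem_of_mem (Finset.mem_toList.2 hy)
  have := hH2 i hi j hj
  simp only [List.getD_eq_getElem _ _ hi, List.getD_eq_getElem _ _ hj] at this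
  exact this

end main

end Pool.Agent.Lib.MP_d50811_al
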