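import Pool.Agent.Lib.MP_d50811_al.Core

/-!
# Two generators for simple groups with a compressible, somewhere locally transitive action

The geometric part: from the hypotheses on the action to the hypotheses of `core`.
-/

namespace Pool.Agent.Lib.MP_d50811_al

open Set
open scoped commutatorElement

section defs

/-- The derived subgroup of the group of the elements that are trivial on `D`. -/
def HH (G : Type*) {X : Type*} [Group G] [MulAction G X] (D : Set X) : Subgroup G :=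
  ⁅Rig G Dᶜ, Rig G Dᶜ⁆

/-- Every closed proper subset can be moved into every nonempty open subset. -/
def Compr (G X : Type*) [Group G] [TopologicalSpace X] [MulAction G X] : Prop :=
  ∀ C U : Set X, IsClosed C → C ≠ Set.univ → IsOpen U → U.Nonempty →
    ∃ g : G, ∀ x ∈ C, g • x ∈ U

/-- Some element which is not the identity is trivial on a nonempty open set. -/
def Micro (G X : Type*) [Group G] [TopologicalSpace X] [MulAction G X] : Prop :=
  ∃ g : G, g ≠ 1 ∧ ∃ Q : Set X, IsOpen Q ∧ Q.Nonempty ∧ ∀ x ∈ Q, g • x = x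

end defs

variable {G X : Type*} [Group G] [TopologicalSpace X] [MulAction G X]

theorem HH_anti {D D' : Set X} (h : D' ⊆ D) : HH G D ≤ HH G D' :=
  Subgroup.commutator_mono (rig_mono (compl_subset_compl.2 h))
    (rig_mono (compl_subset_compl.2 h))

theorem HH_conj {D D' : Set X} {k c : G} (hc : c ∈ HH G D) (h : ∀ x ∈ D', k⁻¹ • x ∈ D) :
    k * c * k⁻¹ ∈ HH G D' := by
  refine comm_conj ?_ hc
  intro t ht
  apply rig_conj ht
  intro x hx hx2
  exact hx2 (h x (not_not.1 hx))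

theorem ne_one_moves [FaithfulSMul G X] {g : G} (h : g ≠ 1) : ∃ x : X, g • x ≠ x := by
  by_contra hcon
  push Not at hcon
  apply h
  apply FaithfulSMul.eq_of_smul_eq_smul (α := X)
  intro x
  rw [hcon x, one_smul]

theorem exists_open_disjoint [T2Space X] [ContinuousConstSMul G X] {g : G} {x : X}
    (h : g • x ≠ x) : ∃ O : Set X, IsOpen O ∧ x ∈ O ∧ ∀ y ∈ O, g • y ∉ O := by
  obtain ⟨V, W, hV, hW, hx, hy, hd⟩ := t2_separation h
  refine ⟨W ∩ (fun y => g • y) ⁻¹' V, hW.inter (hV.preimage (continuous_const_smul g)),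
    ⟨hy, hx⟩, ?_⟩
  intro y hy1 hy2
  exact Set.disjoint_left.1 hd hy1.2 hy2.1

theorem exists_rig (hC : Compr G X) (hM : Micro G X) {O : Set X} (hO : IsOpen O)
    (hne : O.Nonempty) : ∃ g ∈ Rig G O, g ≠ 1 := by
  obtain ⟨g, hg, N, hN, ⟨x, hx⟩, hgN⟩ := hM
  obtain ⟨k, hk⟩ := hC Nᶜ O hN.isClosed_compl (fun e => by
    have : x ∈ Nᶜ := by rw [e]; trivial
    exact this hx) hO hne
  have hgR : g ∈ Rig G Nᶜ := fun x hx => hgN x (not_not.1 hx)
  refine ⟨k * g * k⁻¹, rig_conj hgR ?_, ?_⟩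
  · intro x hx h1
    have := hk _ h1
    rw [smul_inv_smul] at this
    exact hx this
  · intro e
    have h2 : g = 1 := by
      have := congrArg (fun t => k⁻¹ * t * k) e
      simpa [mul_assoc] using this
    exact hg h2

variable [T2Space X] [ContinuousConstSMul G X] [FaithfulSMul G X]

theorem exists_comm_rig (hC : Compr G X) (hM : Micro G X) {O : Set X} (hO : IsOpen O)
    (hne : O.Nonempty) : ∃ g ∈ Rig G O, ∃ g' ∈ Rig G O, ⁅g, g'⁆ ≠ 1 := by
  obtain ⟨r, hr, hr1⟩ := exists_rig hC hM hO hne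
  obtain ⟨x, hx⟩ := ne_one_moves (X := X) hr1
  obtain ⟨O₁, h1, h2, h3⟩ := exists_open_disjoint hx
  have hxO : x ∈ O := by
    by_contra hcon
    exact hx (hr x hcon)
  obtain ⟨s, hs, hs1⟩ := exists_rig hC hM (h1.inter hO) ⟨x, h2, hxO⟩
  refine ⟨r, hr, s, rig_mono inter_subset_right hs, ?_⟩
  intro e
  apply hs1
  rw [commutatorElement_eq_one_iff_mul_comm] at e
  apply FaithfulSMul.eq_of_smul_eq_smul (α := X)
  intro y
  rw [one_smul]
  by_cases hy : y ∈ O₁
  · have e1 : s • r • y = r • y := hs _ (fun h4 => h3 y hy h4.1)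
    have e2 : r • s • y = s • r • y := by rw [← mul_smul, ← mul_smul, e]
    rw [e1] at e2
    exact MulAction.injective r e2
  · exact hs y (fun h4 => hy h4.1)

/-- The group generated by the derived groups `HH G D` for `D ⊆ O`. -/
def MO (G : Type*) {X : Type*} [Group G] [TopologicalSpace X] [MulAction G X] (O : Set X) :
    Subgroup G :=
  Subgroup.closure {c : G | ∃ D : Set X, IsOpen D ∧ D.Nonempty ∧ D ⊆ O ∧ c ∈ HH G D}

omit [T2Space X] [ContinuousConstSMul G X] [FaithfulSMul G X] in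
theorem mem_MO {O D : Set X} (h1 : IsOpen D) (h2 : D.Nonempty) (h3 : D ⊆ O) {c : G}
    (hc : c ∈ HH G D) : c ∈ MO G O := Subgroup.subset_closure ⟨D, h1, h2, h3, hc⟩

omit [T2Space X] [ContinuousConstSMul G X] [FaithfulSMul G X] in
theorem MO_mono {O O' : Set X} (h : O ⊆ O') : MO G O ≤ MO G O' :=
  Subgroup.closure_mono fun _ ⟨D, h1, h2, h3, h4⟩ => ⟨D, h1, h2, h3.trans h, h4⟩

/-- A nonempty set disjoint from `O` is not invariant under `MO G O`. -/
theorem no_invariant (hC : Compr G X) (hM : Micro G X) (hP : ∀ x : X, ¬ IsOpen {x})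
    {O : Set X} (hO : IsOpen O) (hne : O.Nonempty) {Z : Set X} (hZ : Z.Nonempty)
    (hZO : ∀ x ∈ Z, x ∉ O) (hinv : ∀ m ∈ MO G O, ∀ x ∈ Z, m • x ∈ Z) : False := by
  -- disjoint nonempty open sets `O' ⊆ O` and `E₀`
  obtain ⟨u, hu⟩ := hne
  obtain ⟨v, hv⟩ : ∃ v : X, v ≠ u := by
    by_contra hcon
    push Not at hcon
    apply hP u
    have : ({u} : Set X) = univ := by
      ext x; simp [hcon x]
    rw [this]; exact isOpen_univ
  obtain ⟨E₀, O₁, hE, hO₁, hvE, huO, hd⟩ := t2_separation hv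
  have hO' : IsOpen (O ∩ O₁) := hO.inter hO₁
  obtain ⟨g1, hg1, g2, hg2, hg⟩ := exists_comm_rig hC hM hE ⟨v, hvE⟩
  have hsub : E₀ ⊆ (O ∩ O₁)ᶜ := fun x hx hx2 => Set.disjoint_left.1 hd hx hx2.2
  have hgH : ⁅g1, g2⁆ ∈ HH G (O ∩ O₁) :=
    Subgroup.commutator_mem_commutator (rig_mono hsub hg1) (rig_mono hsub hg2)
  have hgR : ⁅g1, g2⁆ ∈ Rig G E₀ := by
    rw [commutatorElement_def]
    exact (Rig G _).mul_mem ((Rig G _).mul_mem ((Rig G _).mul_mem hg1 hg2)
      ((Rig G _).inv_mem hg1)) ((Rig G _).inv_mem hg2)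
  obtain ⟨p, hp⟩ := ne_one_moves (X := X) hg
  have hpE : p ∈ E₀ := by
    by_contra hcon
    exact hp (hgR p hcon)
  obtain ⟨E₁, h1, h2, h3⟩ := exists_open_disjoint hp
  obtain ⟨k, hk⟩ := hC Oᶜ (E₁ ∩ E₀) hO.isClosed_compl (fun e => by
    have : u ∈ Oᶜ := by rw [e]; trivial
    exact this hu) (h1.inter hE) ⟨p, h2, hpE⟩
  -- the conjugate of the commutator is in `MO G O`
  have hmem : k⁻¹ * ⁅g1, g2⁆ * (k⁻¹)⁻¹ ∈ MO G O := by
    refine mem_MO (D := (fun x => k • x) ⁻¹' (O ∩ O₁))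
      (hO'.preimage (continuous_const_smul k)) ⟨k⁻¹ • u, ?_⟩ ?_ (HH_conj hgH ?_)
    · change k • k⁻¹ • u ∈ O ∩ O₁
      rw [smul_inv_smul]; exact ⟨hu, huO⟩
    · intro x hx
      by_contra hcon
      exact hsub (hk x hcon).2 hx
    · intro x hx
      rw [inv_inv]; exact hx
  obtain ⟨y, hy⟩ := hZ
  have e1 := hinv _ hmem y hy
  rw [inv_inv, mul_smul, mul_smul] at e1
  have e2 := hk _ (hZO _ e1)
  rw [smul_inv_smul] at e2
  exact h3 _ (hk _ (hZO y hy)).1 e2.1

theorem MO_minimal (hC : Compr G X) (hM : Micro G X) (hP : ∀ x : X, ¬ IsOpen {x})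
    {O : Set X} (hO : IsOpen O) (hne : O.Nonempty) {V : Set X} (hV : IsOpen V)
    (hVne : V.Nonempty) (p : X) : ∃ m ∈ MO G O, m • p ∈ V := by
  -- every orbit meets `O`
  have step : ∀ {O : Set X}, IsOpen O → O.Nonempty → ∀ p : X, ∃ m ∈ MO G O, m • p ∈ O := by
    intro O hO hne p
    by_contra hcon
    push Not at hcon
    refine no_invariant hC hM hP hO hne (Z := {y | ∃ m ∈ MO G O, y = m • p})
      ⟨p, 1, Subgroup.one_mem _, (one_smul G p).symm⟩ ?_ ?_
    · rintro x ⟨m, hm, rfl⟩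
      exact hcon m hm
    · rintro m hm x ⟨m', hm', rfl⟩
      exact ⟨m * m', Subgroup.mul_mem _ hm hm', (mul_smul m m' p).symm⟩
  -- the union of the translates of `V` meets `O`
  have hY : ∃ m ∈ MO G O, ∃ y ∈ V, m • y ∈ O := by
    by_contra hcon
    push Not at hcon
    obtain ⟨v, hv⟩ := hVne
    refine no_invariant hC hM hP hO hne (Z := {y | ∃ m ∈ MO G O, ∃ w ∈ V, y = m • w})
      ⟨v, 1, Subgroup.one_mem _, v, hv, (one_smul G v).symm⟩ ?_ ?_
    · rintro x ⟨m, hm, w, hw, rfl⟩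
      exact hcon m hm w hw
    · rintro m hm x ⟨m', hm', w, hw, rfl⟩
      exact ⟨m * m', Subgroup.mul_mem _ hm hm', w, hw, (mul_smul m m' w).symm⟩
  obtain ⟨m, hm, y, hy, hyO⟩ := hY
  have hO2 : IsOpen (O ∩ (fun x => m⁻¹ • x) ⁻¹' V) :=
    hO.inter (hV.preimage (continuous_const_smul m⁻¹))
  obtain ⟨m', hm', h1⟩ := step hO2 ⟨m • y, hyO, by
    change m⁻¹ • m • y ∈ V
    rw [inv_smul_smul]; exact hy⟩ p
  refine ⟨m⁻¹ * m', Subgroup.mul_mem _ (Subgroup.inv_mem _ hm)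
    (MO_mono inter_subset_left hm'), ?_⟩
  rw [mul_smul]
  exact h1.2

theorem MO_top [IsSimpleGroup G] (hC : Compr G X) (hM : Micro G X)
    (hP : ∀ x : X, ¬ IsOpen {x}) {O : Set X} (hO : IsOpen O) (hne : O.Nonempty) :
    MO G O = ⊤ := by
  -- everything is contained in `MO G O`
  have h1 : MO G (univ : Set X) ≤ MO G O := by
    rw [MO, Subgroup.closure_le]
    rintro c ⟨D, hD, hDne, -, hc⟩
    obtain ⟨p, hp⟩ := hne
    obtain ⟨m, hm, hmp⟩ := MO_minimal hC hM hP hO ⟨p, hp⟩ hD hDne p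
    have hc' : m⁻¹ * c * (m⁻¹)⁻¹ ∈ HH G (O ∩ (fun x => m • x) ⁻¹' D) :=
      HH_conj hc (fun x hx => by rw [inv_inv]; exact hx.2)
    have h2 : m⁻¹ * c * (m⁻¹)⁻¹ ∈ MO G O :=
      mem_MO (hO.inter (hD.preimage (continuous_const_smul m))) ⟨p, hp, hmp⟩
        inter_subset_left hc'
    have h3 := Subgroup.mul_mem _ (Subgroup.mul_mem _ hm h2) (Subgroup.inv_mem _ hm)
    have e : m * (m⁻¹ * c * (m⁻¹)⁻¹) * m⁻¹ = c := by group
    rwa [e] at h3
  have hnorm : (MO G (univ : Set X)).Normal := by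
    refine ⟨fun n hn g => ?_⟩
    have : MO G (univ : Set X) ≤ (MO G (univ : Set X)).comap (MulAut.conj g).toMonoidHom := by
      rw [MO, Subgroup.closure_le]
      rintro c ⟨D, hD, ⟨y, hy⟩, -, hc⟩
      exact mem_MO (hD.preimage (continuous_const_smul g⁻¹))
        ⟨g • y, by change g⁻¹ • g • y ∈ D; rwa [inv_smul_smul]⟩ (subset_univ _)
        (HH_conj hc (fun x hx => hx))
    exact this hn
  rcases hnorm.eq_bot_or_eq_top with h2 | h2
  · exfalso
    obtain ⟨u, hu⟩ := hne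
    obtain ⟨v, hv⟩ : ∃ v : X, v ≠ u := by
      by_contra hcon
      push Not at hcon
      apply hP u
      have : ({u} : Set X) = univ := by
        ext x; simp [hcon x]
      rw [this]; exact isOpen_univ
    obtain ⟨E, D, hE, hD, hx, hy, hd⟩ := t2_separation hv
    obtain ⟨g, hg, g', hg', hne⟩ := exists_comm_rig hC hM hE ⟨v, hx⟩
    have hsub : E ⊆ Dᶜ := fun x hx1 hx2 => Set.disjoint_left.1 hd hx1 hx2
    have h3 : ⁅g, g'⁆ ∈ MO G (univ : Set X) := mem_MO hD ⟨u, hy⟩ (subset_univ _)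
      (Subgroup.commutator_mem_commutator (rig_mono hsub hg) (rig_mono hsub hg'))
    rw [h2, Subgroup.mem_bot] at h3
    exact hne h3
  · rw [eq_top_iff, ← h2]; exact h1

omit [TopologicalSpace X] [MulAction G X] [T2Space X] [ContinuousConstSMul G X]
  [FaithfulSMul G X] in
theorem exists_finite_of_mem_closure {S : Set G} {x : G} (hx : x ∈ Subgroup.closure S) :
    ∃ T : Set G, T.Finite ∧ T ⊆ S ∧ x ∈ Subgroup.closure T := by
  induction hx using Subgroup.closure_induction with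
  | mem x hx => exact ⟨{x}, finite_singleton x, singleton_subset_iff.2 hx,
      Subgroup.subset_closure rfl⟩
  | one => exact ⟨∅, finite_empty, empty_subset _, Subgroup.one_mem _⟩
  | mul x y _ _ hx hy =>
    obtain ⟨T1, a1, a2, a3⟩ := hx
    obtain ⟨T2, b1, b2, b3⟩ := hy
    exact ⟨T1 ∪ T2, a1.union b1, union_subset a2 b2, Subgroup.mul_mem _
      (Subgroup.closure_mono subset_union_left a3)
      (Subgroup.closure_mono subset_union_right b3)⟩
  | inv x _ hx =>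
    obtain ⟨T1, a1, a2, a3⟩ := hx
    exact ⟨T1, a1, a2, Subgroup.inv_mem _ a3⟩

theorem exists_generators [IsSimpleGroup G] (hfg : Group.FG G) (hC : Compr G X)
    (hM : Micro G X) (hP : ∀ x : X, ¬ IsOpen {x}) {O : Set X} (hO : IsOpen O)
    (hne : O.Nonempty) : ∃ C : Set G, C.Finite ∧ Subgroup.closure C = ⊤ ∧ ∀ c ∈ C,
      ∃ D : Set X, IsOpen D ∧ D.Nonempty ∧ D ⊆ O ∧ c ∈ HH G D := by
  set S : Set G := {c : G | ∃ D : Set X, IsOpen D ∧ D.Nonempty ∧ D ⊆ O ∧ c ∈ HH G D}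
    with hS
  have htop : Subgroup.closure S = ⊤ := MO_top hC hM hP hO hne
  obtain ⟨F, hF, hFfin⟩ := Group.fg_iff.1 hfg
  have key : ∃ T : Set G, T.Finite ∧ T ⊆ S ∧ F ⊆ Subgroup.closure T := by
    clear hF
    induction F, hFfin using Set.Finite.induction_on with
    | empty => exact ⟨∅, finite_empty, empty_subset _, empty_subset _⟩
    | insert _ _ ih =>
      rename_i c F' _ _
      obtain ⟨T1, a1, a2, a3⟩ := ih
      obtain ⟨T2, b1, b2, b3⟩ := exists_finite_of_mem_closure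
        (show c ∈ Subgroup.closure S by rw [htop]; trivial)
      refine ⟨T1 ∪ T2, a1.union b1, union_subset a2 b2, ?_⟩
      rw [insert_subset_iff]
      exact ⟨Subgroup.closure_mono subset_union_right b3, fun t ht =>
        Subgroup.closure_mono subset_union_left (a3 ht)⟩
  obtain ⟨T, hT1, hT2, hT3⟩ := key
  refine ⟨T, hT1, ?_, fun c hc => hT2 hc⟩
  rw [eq_top_iff, ← hF, Subgroup.closure_le]
  exact hT3

/-- The local data from which two generators are constructed. -/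
def Star (G X : Type*) [Group G] [TopologicalSpace X] [MulAction G X] : Prop :=
  ∃ N B : Set X, IsOpen N ∧ N.Nonempty ∧ IsOpen B ∧ B.Nonempty ∧
    ∃ C : Set G, C.Finite ∧ Subgroup.closure C = ⊤ ∧
      ∀ c ∈ C, ∃ D : Set X, c ∈ HH G D ∧ ∃ κ ∈ HH G N, ∀ x ∈ B, κ • x ∈ D

omit [TopologicalSpace X] [T2Space X] [ContinuousConstSMul G X] [FaithfulSMul G X] in
theorem comm_smul_of_fix {k m : G} {y : X} (h : k • m⁻¹ • y = m⁻¹ • y) :
    ⁅k, m⁆ • y = k • y := by
  rw [commutatorElement_def]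
  simp only [mul_smul]
  rw [inv_smul_eq_iff.2 h.symm, smul_inv_smul]

/-- From topological transitivity of the elements that are trivial near `x₀`. -/
theorem star_of_trans [IsSimpleGroup G] (hfg : Group.FG G) (hC : Compr G X) (hM : Micro G X)
    (hP : ∀ x : X, ¬ IsOpen {x}) {x₀ : X} {O : Set X} (hO : IsOpen O) (hne : O.Nonempty)
    (hT : ∀ U V : Set X, IsOpen U → IsOpen V → U.Nonempty → V.Nonempty → U ⊆ O → V ⊆ O →
      ∃ g : G, (∃ N : Set X, IsOpen N ∧ x₀ ∈ N ∧ ∀ x ∈ N, g • x = x) ∧ ∃ x ∈ U, g • x ∈ V) :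
    Star G X := by
  obtain ⟨C, hCfin, hCtop, hCD⟩ := exists_generators hfg hC hM hP hO hne
  choose! D hDo hDne hDO hDc using hCD
  -- a common open set `B₀`
  have hB : ∀ T : Set G, T.Finite → T ⊆ C → ∃ B₀ : Set X, IsOpen B₀ ∧ B₀.Nonempty ∧ B₀ ⊆ O ∧
      ∀ c ∈ T, ∃ k : G, (∃ N : Set X, IsOpen N ∧ x₀ ∈ N ∧ ∀ x ∈ N, k • x = x) ∧
        ∀ x ∈ B₀, k • x ∈ D c := by
    intro T hTf
    induction T, hTf using Set.Finite.induction_on with
    | empty => exact fun _ => ⟨O, hO, hne, le_rfl, fun c hc => absurd hc (Set.notMem_empty c)⟩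
    | insert _ _ ih =>
      rename_i c T' _ _
      intro hsub
      obtain ⟨B₀, h1, h2, h3, h4⟩ := ih ((subset_insert _ _).trans hsub)
      have hcC : c ∈ C := hsub (mem_insert _ _)
      obtain ⟨g, hgN, x, hx, hgx⟩ := hT B₀ (D c) h1 (hDo c hcC) h2 (hDne c hcC) h3 (hDO c hcC)
      refine ⟨B₀ ∩ (fun y => g • y) ⁻¹' D c,
        h1.inter ((hDo c hcC).preimage (continuous_const_smul g)), ⟨x, hx, hgx⟩,
        inter_subset_left.trans h3, ?_⟩
      intro c' hc'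
      rcases mem_insert_iff.1 hc' with rfl | hc'
      · exact ⟨g, hgN, fun y hy => hy.2⟩
      · obtain ⟨k, hk1, hk2⟩ := h4 c' hc'
        exact ⟨k, hk1, fun y hy => hk2 y hy.1⟩
  obtain ⟨B₀, hB1, hB2, hB3, hB4⟩ := hB C hCfin le_rfl
  choose! k hkN hkB using hB4
  choose! Nc hN1 hN2 hN3 using hkN
  set N₁ : Set X := ⋂ c ∈ C, Nc c with hN₁
  have N₁o : IsOpen N₁ := hCfin.isOpen_biInter hN1
  have x₀N₁ : x₀ ∈ N₁ := Set.mem_iInter₂.2 hN2
  have kN₁ : ∀ c ∈ C, ∀ x ∈ N₁, k c • x = x := fun c hc x hx =>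
    hN3 c hc x (Set.mem_iInter₂.1 hx c hc)
  by_cases hcl : x₀ ∈ closure O
  · -- first case
    have hNO : (N₁ ∩ O).Nonempty := mem_closure_iff.1 hcl N₁ N₁o x₀N₁
    obtain ⟨m, ⟨Nm, hm1, hm2, hm3⟩, x, hx, hmx⟩ := hT (N₁ ∩ O) B₀ (N₁o.inter hO) hB1 hNO hB2
      inter_subset_right hB3
    refine ⟨N₁ ∩ Nm, B₀ ∩ (fun y => m⁻¹ • y) ⁻¹' N₁, N₁o.inter hm1, ⟨x₀, x₀N₁, hm2⟩,
      hB1.inter (N₁o.preimage (continuous_const_smul m⁻¹)), ⟨m • x, hmx, ?_⟩, C, hCfin, hCtop, ?_⟩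
    · change m⁻¹ • m • x ∈ N₁
      rw [inv_smul_smul]; exact hx.1
    · intro c hc
      refine ⟨D c, hDc c hc, ⁅k c, m⁆, Subgroup.commutator_mem_commutator ?_ ?_, ?_⟩
      · intro y hy
        exact kN₁ c hc y (not_not.1 hy).1
      · intro y hy
        exact hm3 y (not_not.1 hy).2
      · rintro y ⟨hy1, hy2⟩
        change m⁻¹ • y ∈ N₁ at hy2
        rw [comm_smul_of_fix (kN₁ c hc _ hy2)]
        exact hkB c hc y hy1
  · -- second case
    have hclo : IsOpen (closure O)ᶜ := isClosed_closure.isOpen_compl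
    have hN' : IsOpen (N₁ ∩ (closure O)ᶜ) := N₁o.inter hclo
    obtain ⟨p, hp, hpx⟩ : ∃ p ∈ N₁ ∩ (closure O)ᶜ, p ≠ x₀ := by
      by_contra hcon
      push Not at hcon
      apply hP x₀
      have : ({x₀} : Set X) = N₁ ∩ (closure O)ᶜ := by
        ext y
        constructor
        · rintro rfl; exact ⟨x₀N₁, hcl⟩
        · intro hy; exact hcon y hy
      rw [this]; exact hN'
    obtain ⟨Q₁, N₃, hQ1, hN₃, hpQ, hxN, hd⟩ := t2_separation hpx
    set Q : Set X := Q₁ ∩ (N₁ ∩ (closure O)ᶜ) with hQ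
    have Qo : IsOpen Q := hQ1.inter hN'
    set N₄ : Set X := N₃ ∩ N₁ with hN4
    have N₄o : IsOpen N₄ := hN₃.inter N₁o
    have N₄Q : ∀ y ∈ N₄, y ∉ Q := fun y hy hy2 => Set.disjoint_left.1 hd hy2.1 hy.1
    obtain ⟨u, hu⟩ := hC Qᶜ O Qo.isClosed_compl (fun e => by
      have : p ∈ Qᶜ := by rw [e]; trivial
      exact this ⟨hpQ, hp⟩) hO hne
    have hu' : ∀ y, y ∉ Q → u • y ∈ O := fun y hy => hu y hy
    set N₂ : Set X := (fun y => u⁻¹ • y) ⁻¹' N₄ with hN2'
    have N₂o : IsOpen N₂ := N₄o.preimage (continuous_const_smul u⁻¹)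
    have N₂O : N₂ ⊆ O := by
      intro y hy
      have := hu' _ (N₄Q _ hy)
      rwa [smul_inv_smul] at this
    set B₁ : Set X := (fun y => u⁻¹ • y) ⁻¹' B₀ with hB₁
    have B₁o : IsOpen B₁ := hB1.preimage (continuous_const_smul u⁻¹)
    have B₁O : B₁ ⊆ O := by
      intro y hy
      have hy' : u⁻¹ • y ∉ Q := fun h1 => h1.2.2 (subset_closure (hB3 hy))
      have := hu' _ hy'
      rwa [smul_inv_smul] at this
    obtain ⟨b₀, hb₀⟩ := hB2
    obtain ⟨m, ⟨Nm, hm1, hm2, hm3⟩, x, hx, hmx⟩ := hT N₂ B₁ N₂o B₁o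
      ⟨u • x₀, by change u⁻¹ • u • x₀ ∈ N₄; rw [inv_smul_smul]; exact ⟨hxN, x₀N₁⟩⟩
      ⟨u • b₀, by change u⁻¹ • u • b₀ ∈ B₀; rw [inv_smul_smul]; exact hb₀⟩ N₂O B₁O
    refine ⟨Nm ∩ (closure O)ᶜ, B₁ ∩ (fun y => m⁻¹ • y) ⁻¹' N₂, hm1.inter hclo,
      ⟨x₀, hm2, hcl⟩, B₁o.inter (N₂o.preimage (continuous_const_smul m⁻¹)), ⟨m • x, hmx, ?_⟩,
      (fun c => u * c * u⁻¹) '' C, hCfin.image _, ?_, ?_⟩
    · change m⁻¹ • m • x ∈ N₂
      rw [inv_smul_smul]; exact hx
    · have e1 : (fun c => u * c * u⁻¹) = (MulAut.conj u).toMonoidHom := rfl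
      rw [e1, ← MonoidHom.map_closure, hCtop]
      exact Subgroup.map_top_of_surjective _ (MulAut.conj u).surjective
    · rintro _ ⟨c, hc, rfl⟩
      refine ⟨(fun y => u⁻¹ • y) ⁻¹' D c, HH_conj (hDc c hc) (fun y hy => hy),
        ⁅u * k c * u⁻¹, m⁆, Subgroup.commutator_mem_commutator ?_ ?_, ?_⟩
      · have h1 : k c ∈ Rig G Qᶜ := fun y hy => kN₁ c hc y (not_not.1 hy).2.1
        have h2 : u * k c * u⁻¹ ∈ Rig G O := by
          apply rig_conj h1
          intro y hy hy2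
          have := hu' _ hy2
          rw [smul_inv_smul] at this
          exact hy this
        refine rig_mono ?_ h2
        intro y hy hy2
        exact hy2.2 (subset_closure hy)
      · intro y hy
        exact hm3 y (not_not.1 hy).1
      · rintro y ⟨hy1, hy2⟩
        change m⁻¹ • y ∈ N₂ at hy2
        have e2 : (u * k c * u⁻¹) • m⁻¹ • y = m⁻¹ • y := by
          rw [mul_smul, mul_smul, kN₁ c hc _ hy2.2, smul_inv_smul]
        rw [comm_smul_of_fix e2]
        change u⁻¹ • (u * k c * u⁻¹) • y ∈ D c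
        rw [mul_smul, mul_smul, inv_smul_smul]
        exact hkB c hc _ hy1

theorem two_generated_of_star (hC : Compr G X) (hM : Micro G X)
    (hP : ∀ x : X, ¬ IsOpen {x}) (hS : Star G X) :
    ∃ a b : G, Subgroup.closure {a, b} = ⊤ := by
  obtain ⟨Nn, Bb, hNo, ⟨x₁, hx₁⟩, hBo, ⟨b₁, hb₁⟩, C, hCfin, hCtop, hCD⟩ := hS
  choose! D hDc κ hκN hκB using hCD
  -- disjoint subsets `N` and `B₁`
  obtain ⟨y₁, hy₁, hyx⟩ : ∃ y ∈ Bb, y ≠ x₁ := by
    by_contra hcon
    push Not at hcon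
    apply hP x₁
    have : ({x₁} : Set X) = Bb := by
      ext y
      constructor
      · rintro rfl
        rw [← hcon b₁ hb₁]; exact hb₁
      · intro hy; exact hcon y hy
    rw [this]; exact hBo
  obtain ⟨B₂, N₂, hB2, hN2, hyB, hxN, hd⟩ := t2_separation hyx
  set N : Set X := N₂ ∩ Nn with hN
  have N_open : IsOpen N := hN2.inter hNo
  have x₁N : x₁ ∈ N := ⟨hxN, hx₁⟩
  set B₁ : Set X := B₂ ∩ Bb with hB₁
  have B₁o : IsOpen B₁ := hB2.inter hBo
  have NB₁ : ∀ x ∈ N, x ∉ B₁ := fun x hx hx2 => Set.disjoint_left.1 hd hx2.1 hx.1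
  have κN : ∀ c ∈ C, κ c ∈ HH G N := fun c hc => HH_anti inter_subset_right (hκN c hc)
  -- `z₊`
  obtain ⟨zp, hzpR, hzp1⟩ := exists_rig hC hM B₁o ⟨y₁, hyB, hy₁⟩
  obtain ⟨y₀, hzp⟩ := ne_one_moves (X := X) hzp1
  have y₀B₁ : y₀ ∈ B₁ := by
    by_contra hcon
    exact hzp (hzpR y₀ hcon)
  have zpN : ∀ x ∈ N, zp • x = x := fun x hx => hzpR x (NB₁ x hx)
  -- `z₋'`
  obtain ⟨zm', hzm', hzm1⟩ := exists_rig hC hM N_open ⟨x₁, x₁N⟩
  obtain ⟨y', hy'⟩ := ne_one_moves (X := X) hzm1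
  have y'N : y' ∈ N := by
    by_contra hcon
    exact hy' (hzm' y' hcon)
  obtain ⟨A₀, hA1, hA2, hA3⟩ := exists_open_disjoint hy'
  set A4 : Set X := A₀ ∩ N with hA4
  have A4_open : IsOpen A4 := hA1.inter N_open
  have zmA4 : ∀ x ∈ A4, zm' • x ∉ A4 := fun x hx hx2 => hA3 x hx.1 hx2.1
  -- `λ'`
  obtain ⟨l1, hl1, l2, hl2, hl⟩ := exists_comm_rig hC hM A4_open ⟨y', hA2, y'N⟩
  have hlR : ⁅l1, l2⁆ ∈ Rig G A4 := by
    rw [commutatorElement_def]
    exact (Rig G _).mul_mem ((Rig G _).mul_mem ((Rig G _).mul_mem hl1 hl2)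
      ((Rig G _).inv_mem hl1)) ((Rig G _).inv_mem hl2)
  obtain ⟨x', hx'⟩ := ne_one_moves (X := X) hl
  have x'A4 : x' ∈ A4 := by
    by_contra hcon
    exact hx' (hlR x' hcon)
  obtain ⟨A₁, hA5, hA6, hA7⟩ := exists_open_disjoint hx'
  set A' : Set X := A₁ ∩ A4 with hA'
  have A'_open : IsOpen A' := hA5.inter A4_open
  have lamA' : ∀ x ∈ A', ⁅l1, l2⁆ • x ∉ A' := fun x hx hx2 => hA7 x hx.1 hx2.1
  have A'A4 : ∀ x ∈ A', x ∈ A4 := fun x hx => hx.2
  have A4N : ∀ x ∈ A4, x ∈ N := fun x hx => hx.2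
  -- `B`
  obtain ⟨B₀, hB1, hB2', hB3⟩ := exists_open_disjoint hzp
  set B : Set X := B₀ ∩ B₁ with hB
  have B_open : IsOpen B := hB1.inter B₁o
  have y₀B : y₀ ∈ B := ⟨hB2', y₀B₁⟩
  have zpB : ∀ x ∈ B, zp • x ∉ B := fun x hx hx2 => hB3 x hx.1 hx2.1
  have κB : ∀ c ∈ C, ∀ x ∈ B, κ c • x ∈ D c := fun c hc x hx => hκB c hc x hx.2.2
  have BN : ∀ x ∈ B, x ∉ N := by
    intro x hx hxN
    have := zpB x hx
    rw [zpN x hxN] at this
    exact this hx
  -- `a`
  obtain ⟨a, ha⟩ := hC A'ᶜ B A'_open.isClosed_compl (fun e => by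
    have : x' ∈ A'ᶜ := by rw [e]; trivial
    exact this ⟨hA6, x'A4⟩) B_open ⟨y₀, y₀B⟩
  have ha' : ∀ x, x ∉ A' → a • x ∈ B := fun x hx => ha x hx
  have ha'' : ∀ x, a • x ∉ B → x ∈ A' := by
    intro x hx
    by_contra hcon
    exact hx (ha' x hcon)
  have aB : ∀ x ∈ B, a • x ∈ B := fun x hx => ha' x (fun h1 => BN x hx (A4N _ (A'A4 _ h1)))
  set zm : G := a⁻¹ * zm' * a with hzm
  set z : G := zp * zm with hz
  have zmeq : ∀ x : X, zm • x = a⁻¹ • zm' • a • x := by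
    intro x; simp only [hzm, mul_smul]
  have zeq : ∀ x : X, z • x = zp • zm • x := by
    intro x; rw [hz, mul_smul]
  -- `a⁻¹ N ⊆ A'`
  have aN : ∀ x : X, a • x ∈ N → x ∈ A' := fun x hx => ha'' x (fun h1 => BN _ h1 hx)
  -- `z = z₊` on `B`
  have zB : ∀ x ∈ B, z • x = zp • x := by
    intro x hx
    rw [zeq, zmeq, hzm' _ (fun h1 => BN _ (aB x hx) h1), inv_smul_smul]
  have zpBN : ∀ x ∈ B, zp • x ∉ N := by
    intro x hx hxN
    have e1 := zpN _ hxN
    have e2 : zp • x = x := MulAction.injective zp e1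
    have := zpB x hx
    rw [e2] at this
    exact this hx
  -- on `A2`
  have zA2 : ∀ x : X, a • a • x ∉ B → a • x ∈ A' ∧ z • x = a⁻¹ • zm' • a • x ∧
      zm' • a • x ∉ A4 ∧ z • x ∈ N := by
    intro x hx
    have e1 : a • x ∈ A' := ha'' _ hx
    have e2 : zm' • a • x ∉ A4 := zmA4 _ (A'A4 _ e1)
    have e3 : zm' • a • x ∈ N := rig_map hzm' (A4N _ (A'A4 _ e1))
    have e4 : zm • x ∈ N := by
      rw [zmeq]
      apply A4N; apply A'A4; apply aN
      rw [smul_inv_smul]; exact e3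
    have e5 : z • x = zm • x := by rw [zeq, zpN _ e4]
    refine ⟨e1, ?_, e2, ?_⟩
    · rw [e5, zmeq]
    · rw [e5]; exact e4
  have c2 : ∀ x ∈ B, z • x ∉ B := by
    intro x hx; rw [zB x hx]; exact zpB x hx
  have c3 : ∀ x ∈ B, a • z • x ∈ B := by
    intro x hx
    rw [zB x hx]
    exact ha' _ (fun h1 => zpBN x hx (A4N _ (A'A4 _ h1)))
  have c4 : ∀ x ∈ B, z • a⁻¹ • z • x = a⁻¹ • z • x := by
    intro x hx
    rw [zB x hx, zeq, zmeq, smul_inv_smul, hzm' _ (zpBN x hx)]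
    apply zpN
    apply A4N; apply A'A4; apply ha''
    rw [smul_inv_smul]; exact zpB x hx
  have c5 : ∀ x : X, a • a • x ∉ B → a • a • z • x ∈ B := by
    intro x hx
    obtain ⟨e1, e2, e3, e4⟩ := zA2 x hx
    rw [e2, smul_inv_smul]
    exact ha' _ (fun h1 => e3 (A'A4 _ h1))
  have c6 : ∀ x : X, a • a • x ∉ B → z • x ∉ B := by
    intro x hx hxB
    exact BN _ hxB (zA2 x hx).2.2.2
  -- the elements to be prescribed
  set lam : G := a⁻¹ * ⁅l1, l2⁆ * a with hlam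
  set f : G := z⁻¹ * lam * z with hf
  set η : G → G := fun c => κ c * (a * a) * lam with hη
  set R : Set X := {y : X | a • a • y ∈ B} with hR
  have fR : f ∈ ⁅Rig G R, Rig G R⁆ := by
    have e : f = (a * z)⁻¹ * ⁅l1, l2⁆ * ((a * z)⁻¹)⁻¹ := by
      rw [hf, hlam]; group
    rw [e]
    apply comm_conj (S := Rig G A4) _ (Subgroup.commutator_mem_commutator hl1 hl2)
    intro t ht
    apply rig_conj ht
    intro x hx h1
    obtain ⟨e1, e2, e3, e4⟩ := zA2 x hx
    apply e3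
    rwa [inv_inv, mul_smul, e2, smul_inv_smul] at h1
  have κR : ∀ c ∈ C, κ c ∈ ⁅Rig G R, Rig G R⁆ := by
    intro c hc
    have hsub : Nᶜ ⊆ R := by
      intro x hx
      by_contra hcon
      apply hx
      apply A4N; apply A'A4; apply aN
      exact A4N _ (A'A4 _ (zA2 x hcon).1)
    exact Subgroup.commutator_mono (rig_mono hsub) (rig_mono hsub) (κN c hc)
  have ηD : ∀ c ∈ C, ∀ x, x ∉ R → η c • x ∈ D c := by
    intro c hc x hx
    obtain ⟨e1, e2, e3, e4⟩ := zA2 x hx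
    have e5 : η c • x = κ c • a • ⁅l1, l2⁆ • a • x := by
      simp only [hη, hlam, mul_smul, smul_inv_smul]
    rw [e5]
    exact κB c hc _ (ha' _ (lamA' _ e1))
  have cR : ∀ c ∈ C, (η c)⁻¹ * c * (η c) ∈ ⁅Rig G R, Rig G R⁆ := by
    intro c hc
    have e : (η c)⁻¹ * c * (η c) = (η c)⁻¹ * c * ((η c)⁻¹)⁻¹ := by rw [inv_inv]
    rw [e]
    apply comm_conj _ (hDc c hc)
    intro t ht
    apply rig_conj ht
    intro x hx h1
    apply h1
    rw [inv_inv]
    exact ηD c hc x hx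
  obtain ⟨H, hH1, hH2⟩ := core aB c2 c3 c4 c5 c6
    (insert f (κ '' C ∪ (fun c => (η c)⁻¹ * c * (η c)) '' C))
    (((hCfin.image _).union (hCfin.image _)).insert f) (by
      intro s hs
      rcases Set.mem_insert_iff.1 hs with rfl | hs
      · exact fR
      · rcases hs with ⟨c, hc, rfl⟩ | ⟨c, hc, rfl⟩
        · exact κR c hc
        · exact cR c hc)
  refine ⟨a, z * H, ?_⟩
  set K := Subgroup.closure {a, z * H} with hK
  have aK : a ∈ K := Subgroup.subset_closure (by simp)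
  have bK : z * H ∈ K := Subgroup.subset_closure (by simp)
  have fK : f ∈ K := hH2 f (Set.mem_insert _ _)
  -- `f` commutes with `H`
  have fU : f ∈ Rig G {y : X | z⁻¹ • a • y ∈ B}ᶜ := by
    intro u hu
    have hu' : z⁻¹ • a • u ∈ B := not_not.1 hu
    set w := z⁻¹ • a • u with hw
    have e1 : a • u = z • w := (smul_inv_smul _ _).symm
    have e2 : u = a⁻¹ • z • w := by rw [← e1, inv_smul_smul]
    have e3 : z • u = u := by rw [e2]; exact c4 w hu'
    have e4 : a • u ∉ A4 := by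
      rw [e1, zB w hu']
      exact fun h1 => zpBN w hu' (A4N _ h1)
    simp only [hf, hlam, mul_smul]
    rw [e3, hlR _ e4, inv_smul_smul, inv_smul_eq_iff, e3]
  have lamK : lam ∈ K := by
    have e1 : f * H = H * f := rig_commute fU hH1 (fun x hx hx2 => hx hx2)
    have e2 : lam = (z * H) * f * (z * H)⁻¹ := by
      rw [mul_assoc z H f, ← e1, hf]; group
    rw [e2]
    exact K.mul_mem (K.mul_mem bK fK) (K.inv_mem bK)
  rw [eq_top_iff, ← hCtop, Subgroup.closure_le]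
  intro c hc
  have κK : κ c ∈ K := hH2 _ (Set.mem_insert_of_mem _ (Or.inl ⟨c, hc, rfl⟩))
  have cK : (η c)⁻¹ * c * (η c) ∈ K := hH2 _ (Set.mem_insert_of_mem _ (Or.inr ⟨c, hc, rfl⟩))
  have ηK : η c ∈ K := K.mul_mem (K.mul_mem κK (K.mul_mem aK aK)) lamK
  have e : c = η c * ((η c)⁻¹ * c * (η c)) * (η c)⁻¹ := by group
  rw [e]
  exact K.mul_mem (K.mul_mem ηK cK) (K.inv_mem ηK)

/-- The degenerate case of a space with an isolated point. -/
theorem two_generated_of_isolated [IsSimpleGroup G] (hC : Compr G X) {x : X}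
    (hx : IsOpen {x}) : ∃ a b : G, Subgroup.closure {a, b} = ⊤ := by
  obtain ⟨g, hg⟩ := exists_ne (1 : G)
  obtain ⟨v, hv⟩ : ∃ v : X, v ≠ x := by
    by_contra hcon
    push Not at hcon
    apply hg
    apply FaithfulSMul.eq_of_smul_eq_smul (α := X)
    intro y
    rw [hcon (g • y), hcon ((1 : G) • y)]
  obtain ⟨k, hk⟩ := hC {x}ᶜ {x} hx.isClosed_compl (fun e => by
    have : x ∈ ({x} : Set X)ᶜ := by rw [e]; trivial
    exact this rfl) hx ⟨x, rfl⟩
  have htwo : ∀ y : X, y = x ∨ y = v := by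
    intro y
    by_cases hy : y = x
    · exact Or.inl hy
    · right
      have h1 : k • y = x := hk y hy
      have h2 : k • v = x := hk v hv
      exact MulAction.injective k (h1.trans h2.symm)
  have fix : ∀ h : G, h • x = x → h = 1 := by
    intro h hh
    apply FaithfulSMul.eq_of_smul_eq_smul (α := X)
    intro y
    rw [one_smul]
    rcases htwo y with rfl | rfl
    · exact hh
    · rcases htwo (h • y) with h1 | h1
      · exact absurd (MulAction.injective h (h1.trans hh.symm)) hv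
      · exact h1
  have moved : ∀ h : G, h ≠ 1 → h • x = v := fun h hh => (htwo (h • x)).resolve_left
    (fun h1 => hh (fix h h1))
  refine ⟨g, g, ?_⟩
  rw [eq_top_iff]
  intro h _
  by_cases hh : h = 1
  · rw [hh]; exact Subgroup.one_mem _
  · have e : g⁻¹ * h = 1 := fix _ (by
      rw [mul_smul, moved h hh, inv_smul_eq_iff, moved g hg])
    have e2 : h = g := by
      rw [inv_mul_eq_one] at e
      exact e.symm
    rw [e2]
    exact Subgroup.subset_closure (by simp)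

/-- **Main theorem.** -/
theorem two_generated [IsSimpleGroup G] (hfg : Group.FG G) (hC : Compr G X) {x₀ : X}
    {O : Set X} (hO : IsOpen O) (hne : O.Nonempty)
    (hT : ∀ U V : Set X, IsOpen U → IsOpen V → U.Nonempty → V.Nonempty → U ⊆ O → V ⊆ O →
      ∃ g : G, (∃ N : Set X, IsOpen N ∧ x₀ ∈ N ∧ ∀ x ∈ N, g • x = x) ∧ ∃ x ∈ U, g • x ∈ V) :
    ∃ a b : G, Subgroup.closure {a, b} = ⊤ := by
  by_cases hP : ∀ x : X, ¬ IsOpen {x}
  · have hM : Micro G X := by
      obtain ⟨u, hu⟩ := hne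
      obtain ⟨v, hv, hvu⟩ : ∃ v ∈ O, v ≠ u := by
        by_contra hcon
        push Not at hcon
        apply hP u
        have : ({u} : Set X) = O := by
          ext y
          constructor
          · rintro rfl; exact hu
          · intro hy; exact hcon y hy
        rw [this]; exact hO
      obtain ⟨V, U, hV, hU, hvV, huU, hd⟩ := t2_separation hvu
      obtain ⟨g, ⟨N, hN, hxN, hgN⟩, x, hx, hgx⟩ := hT (U ∩ O) (V ∩ O) (hU.inter hO)
        (hV.inter hO) ⟨u, huU, hu⟩ ⟨v, hvV, hv⟩ inter_subset_right inter_subset_right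
      refine ⟨g, ?_, N, hN, ⟨x₀, hxN⟩, hgN⟩
      rintro rfl
      rw [one_smul] at hgx
      exact Set.disjoint_left.1 hd hgx.1 hx.1
    exact two_generated_of_star hC hM hP (star_of_trans hfg hC hM hP hO hne hT)
  · push Not at hP
    obtain ⟨x, hx⟩ := hP
    exact two_generated_of_isolated hC hx

end Pool.Agent.Lib.MP_d50811_al
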